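import Pool.Agent.R735.TwoSing.Final

/-!
# A `G`-manifold with two different singular orbits and a metric of positive curvature

`G = S¹ × SU(2)` acts on `ℝ⁸ = ℍ ⊕ ℍ` by `(z, q) · (a, b) = (q a z⁻¹, q b)`. On the unit sphere
`S⁷` this action is free outside the two orbits `{a = 0}` and `{b = 0}`, which are singular. The
isotropy groups are `{(z, 1)}` along the first one, and `{(z, a z a⁻¹)}` along the second one. The
former are central in `G` and the latter are not, so that the two singular orbits are different
(even up to automorphisms of `G`); the cohomogeneity is three. The round metric of radius `1/4` is
invariant, has sectional curvature `16` and diameter `π/4 ≤ 1`.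
-/

set_option autoImplicit false

namespace Pool.Agent.Results.MP_9877a5_gt.TwoSingularOrbits

open Pool.Agent.R731.SO Pool.Agent.R735.TwoSing
open scoped Quaternion

/-- The compact connected Lie group `S¹ × SU(2)` has a smooth effective orthogonal action on `ℝ⁸`
which makes the unit sphere `S⁷` a `G`-manifold with finitely many non-principal orbits, with
exactly two singular orbits, which are different (their isotropy groups are not even related by an
automorphism of the group), and of cohomogeneity three; and the manifold `S⁷` admits metrics of
almost nonnegative sectional curvature. It even admits an invariant metric of diameter at most `1`
and sectional curvature at least `16`. -/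
theorem result : IsExample GG (ℂ × ℍ[ℝ]) inclG E8 3 :=
  main

end Pool.Agent.Results.MP_9877a5_gt.TwoSingularOrbits
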